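import Pool.Agent.H.MP_a94181_al.A

set_option autoImplicit false

namespace Pool.Agent.Results.MP_a94181_al.No

theorem result : ∀ a : ℝ, 0 < a → ∃ (G : Type) (_ : Group G) (_ : Finite G),
    Group.IsNilpotent G ∧ IsPGroup 2 G ∧
      (Nat.card (MulAut G) : ℝ) < (Nat.totient (Nat.card G) : ℝ) ^ a := by
  intro a ha
  obtain ⟨G, _, _, h1, h2⟩ := Pool.Agent.H.MP_a94181_al.main a ha
  haveI : Fact (Nat.Prime 2) := ⟨Nat.prime_two⟩
  exact ⟨G, inferInstance, inferInstance, h1.isNilpotent, h1, h2⟩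

end Pool.Agent.Results.MP_a94181_al.No
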